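import Pool.Agent.Work.MP_a5099b_nt.Defs
import Pool.Agent.Work.MP_a5099b_nt.B.PhiX
import Pool.Agent.Work.MP_a5099b_nt.B.Sym
import Pool.Agent.Work.MP_a5099b_nt.B.Kro2
import Pool.Agent.Work.MP_a5099b_nt.B.Diag
import Pool.Agent.Work.MP_a5099b_nt.B.Sep
import Pool.Agent.Work.MP_a5099b_nt.B.Mult
import Pool.Agent.Work.MP_a5099b_nt.B.HHx
import Pool.Agent.Work.MP_a5099b_nt.B.HHs

/-!
Interface of block B (modular polynomials of prime level). Architect: helper1.
This file only imports the modules `B.*`, which contain the statements (same names as before):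
`isPhi, PhiAt_monic, PhiAt_natDegree, PhiAt_map, PhiAt_lat, PhiDiag_aeval` (`B.PhiX`),
`PhiAt_symm` (`B.Sym`), `GG_spec` (`B.Kro`), `kron_at, GGAt_map, GGAt_symm, PhiAt_kron` (`B.Kro2`),
`PhiDiag_natDegree, PhiDiag_leadingCoeff` (`B.Diag`), `PhiAt_sep` (`B.Sep`), `diag_mult` (`B.Mult`),
`isHH, HH_factor, HH_even` (`B.HHx`), `HH_sq` (`B.HHs`).
-/
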