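import Pool.Agent.Work.MP_a5099b_nt.Defs
import Pool.Agent.Work.MP_a5099b_nt.SpecB

/-!
Block T (the operator `TT n`).
-/

set_option autoImplicit false

namespace Pool.Agent.SS

open Polynomial
open Pool.Agent.Work.CM

theorem aeval_eq {A : Type*} [CommRing A] (x : A) (F : ℤ[X]) :
    aeval x F = (F.map (Int.castRingHom A)).eval x := by
  rw [aeval_def, eval_map]
  rfl

theorem map_eval_X {R : Type*} [CommRing R] (F : ℤ[X]) :
    (F.map (Int.castRingHom R[X])).eval X = F.map (Int.castRingHom R) := by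
  have : F.map (Int.castRingHom R[X]) = (F.map (Int.castRingHom R)).map C := by
    rw [Polynomial.map_map]
    congr 1
  rw [this, eval_map, eval₂_C_X]

theorem TT_res {n : ℕ} {A : Type*} [CommRing A] (x : A) (F : ℤ[X]) :
    aeval x (TT n F) =
      resultant (PhiAt n x) (F.map (Int.castRingHom A)) (n + 1) F.natDegree := by
  have h := resultant_map_map (Phi n) (F.map C) (n + 1) F.natDegree
    (aeval x : ℤ[X] →ₐ[ℤ] A).toRingHom
  have h2 : (F.map C).map (aeval x : ℤ[X] →ₐ[ℤ] A).toRingHom = F.map (Int.castRingHom A) := by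
    rw [Polynomial.map_map]
    congr 1
    exact RingHom.ext_int _ _
  rw [h2] at h
  exact h.symm

theorem TT_aeval {n : ℕ} (hn : n.Prime) {A : Type*} [CommRing A] [IsDomain A] (x : A)
    (s : Multiset A) (hs : PhiAt n x = (s.map fun y => X - C y).prod) (F : ℤ[X]) :
    aeval x (TT n F) = (s.map fun y => aeval y F).prod := by
  rw [TT_res]
  have h1 := PhiAt_natDegree hn x
  have hsp : (PhiAt n x).Splits := by
    rw [hs]
    exact Splits.multisetProd fun f hf => by
      obtain ⟨y, _, rfl⟩ := Multiset.mem_map.mp hf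
      exact Splits.X_sub_C y
  have h2 := resultant_eq_prod_eval (PhiAt n x) (F.map (Int.castRingHom A)) F.natDegree
    natDegree_map_le hsp
  rw [h1] at h2
  rw [h2, PhiAt_monic hn x |>.leadingCoeff, one_pow, one_mul]
  have h3 : (PhiAt n x).roots = s := by
    rw [hs, roots_multiset_prod_X_sub_C]
  rw [h3]
  congr 1
  apply Multiset.map_congr rfl
  intro y _
  rw [eval_map, aeval_def]
  rfl

theorem TT_aeval_alg {n : ℕ} (hn : n.Prime) {k : Type*} [Field k] [IsAlgClosed k] (x : k)
    (F : ℤ[X]) : aeval x (TT n F) = ((PhiAt n x).roots.map fun y => aeval y F).prod := by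
  apply TT_aeval hn
  have h := (IsAlgClosed.splits (PhiAt n x)).eq_prod_roots
  rw [PhiAt_monic hn x |>.leadingCoeff, C_1, one_mul] at h
  exact h

theorem TT_deg {n : ℕ} (hn : n.Prime) {A : Type*} [CommRing A] [Nontrivial A] (x : A)
    (F : ℤ[X]) {d : ℕ} (hd : (F.map (Int.castRingHom A)).natDegree ≤ d)
    (hd2 : F.natDegree ≤ d) :
    aeval x (TT n F) = resultant (PhiAt n x) (F.map (Int.castRingHom A)) (n + 1) d := by
  rw [TT_res]
  obtain ⟨e, rfl⟩ := Nat.exists_eq_add_of_le hd2
  rw [resultant_add_right_deg _ _ _ _ _ (natDegree_map_le)]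
  have h1 := PhiAt_natDegree hn x
  have h2 : (PhiAt n x).coeff (n + 1) = 1 := by
    rw [← h1]
    exact PhiAt_monic hn x
  rw [h2, one_pow, one_mul]

/-- The value of `T F` depends only on `F` modulo the kernel. -/
theorem TT_congr {n : ℕ} (hn : n.Prime) {A : Type*} [CommRing A] (x : A)
    {F G : ℤ[X]} (h : F.map (Int.castRingHom A) = G.map (Int.castRingHom A)) :
    aeval x (TT n F) = aeval x (TT n G) := by
  nontriviality A
  have hF := TT_deg hn x F (d := max F.natDegree G.natDegree)
    (natDegree_map_le.trans (le_max_left _ _)) (le_max_left _ _)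
  have hG := TT_deg hn x G (d := max F.natDegree G.natDegree)
    (natDegree_map_le.trans (le_max_right _ _)) (le_max_right _ _)
  rw [hF, hG, h]

theorem TT_one {n : ℕ} (hn : n.Prime) : TT n 1 = 1 := by
  have h := TT_res (n := n) (X : ℤ[X]) 1
  rw [aeval_eq, map_eval_X] at h
  have hid : Int.castRingHom ℤ = RingHom.id ℤ := RingHom.ext_int _ _
  rw [hid, Polynomial.map_id] at h
  rw [h]
  have h1 := PhiAt_natDegree hn (X : ℤ[X])
  have h2 : (PhiAt n (X : ℤ[X])).coeff (n + 1) = 1 := by
    rw [← h1]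
    exact PhiAt_monic hn _
  simp [h2]

theorem TT_mul {n : ℕ} (hn : n.Prime) (F G : ℤ[X]) : TT n (F * G) = TT n F * TT n G := by
  have key : ∀ F : ℤ[X], TT n F = resultant (PhiAt n (X : ℤ[X])) (F.map C) (n + 1)
      F.natDegree := by
    intro F
    have h := TT_res (n := n) (X : ℤ[X]) F
    have hid : Int.castRingHom ℤ = RingHom.id ℤ := RingHom.ext_int _ _
    rw [aeval_eq, map_eval_X, hid, Polynomial.map_id] at h
    rw [h]
    congr 2
  have hd := PhiAt_natDegree hn (X : ℤ[X])
  have hc : ∀ F : ℤ[X], (F.map (C : ℤ →+* ℤ[X])).natDegree = F.natDegree := fun F =>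
    natDegree_map_eq_of_injective C_injective F
  by_cases hF : F = 0
  · subst hF
    have : TT n (0 : ℤ[X]) = 0 := by
      rw [key]
      simp
    rw [zero_mul, this, zero_mul]
  by_cases hG : G = 0
  · subst hG
    have : TT n (0 : ℤ[X]) = 0 := by
      rw [key]
      simp
    rw [mul_zero, this, mul_zero]
  have h := resultant_mul_right (PhiAt n (X : ℤ[X])) (F.map C) (G.map C) (n + 1) hd.le
  rw [hc, hc] at h
  rw [key, key, key, natDegree_mul hF hG, Polynomial.map_mul, h]

theorem TT_pow {n : ℕ} (hn : n.Prime) (F : ℤ[X]) (m : ℕ) : TT n (F ^ m) = TT n F ^ m := by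
  induction m with
  | zero => simp [TT_one hn]
  | succ m ih => rw [pow_succ, pow_succ, TT_mul hn, ih]

theorem TT_monic_natDegree {n : ℕ} (hn : n.Prime) (h2 : n ≠ 2) {F : ℤ[X]} (hF : F.Monic) :
    (TT n F).Monic ∧ (TT n F).natDegree = (n + 1) * F.natDegree := by
  have hinj : Function.Injective (Int.castRingHom ℂ) := Int.cast_injective
  have hev : Even ((n + 1) * F.natDegree) := by
    have : Even (n + 1) := by
      rcases hn.eq_two_or_odd' with h | h
      · exact absurd h h2
      · exact h.add_one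
    exact this.mul_right _
  have h := TT_res (n := n) (X : ℂ[X]) F
  rw [resultant_comm, hev.neg_one_pow, one_mul] at h
  have hFm : (F.map (Int.castRingHom ℂ[X])).Monic := hF.map _
  have hFd : (F.map (Int.castRingHom ℂ[X])).natDegree = F.natDegree := hF.natDegree_map _
  have hmm : F.map (Int.castRingHom ℂ[X]) = (F.map (Int.castRingHom ℂ)).map C := by
    rw [Polynomial.map_map]
    congr 1
  have hs : (F.map (Int.castRingHom ℂ[X])).Splits := by
    rw [hmm]
    exact (IsAlgClosed.splits _).map _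
  have hr : (F.map (Int.castRingHom ℂ[X])).roots =
      (F.map (Int.castRingHom ℂ)).roots.map C := by
    rw [hmm]
    exact (IsAlgClosed.splits (F.map (Int.castRingHom ℂ))).roots_map _
  have h3 := resultant_eq_prod_eval (F.map (Int.castRingHom ℂ[X])) (PhiAt n (X : ℂ[X])) (n + 1)
    (PhiAt_natDegree hn _).le hs
  rw [hFd, hFm.leadingCoeff, one_pow, one_mul, hr, Multiset.map_map] at h3
  rw [h3] at h
  have h5 : ∀ ρ : ℂ, (PhiAt n (X : ℂ[X])).eval (C ρ) = PhiAt n ρ := by
    intro ρ
    rw [PhiAt_symm hn, ← PhiAt_map C ρ, eval_map, eval₂_C_X]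
  rw [aeval_eq, map_eval_X] at h
  have h6 : (TT n F).map (Int.castRingHom ℂ) =
      ((F.map (Int.castRingHom ℂ)).roots.map fun ρ => PhiAt n ρ).prod := by
    rw [h]
    congr 1
    apply Multiset.map_congr rfl
    intro ρ _
    exact h5 ρ
  have hmon : ((TT n F).map (Int.castRingHom ℂ)).Monic := by
    rw [h6]
    exact monic_multiset_prod_of_monic _ _ fun ρ _ => PhiAt_monic hn ρ
  have hdeg : ((TT n F).map (Int.castRingHom ℂ)).natDegree = (n + 1) * F.natDegree := by
    rw [h6, natDegree_multiset_prod_of_monic]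
    · rw [Multiset.map_map]
      have : ((F.map (Int.castRingHom ℂ)).roots.map (natDegree ∘ fun ρ => PhiAt n ρ)) =
          (F.map (Int.castRingHom ℂ)).roots.map fun _ => n + 1 := by
        apply Multiset.map_congr rfl
        intro ρ _
        exact PhiAt_natDegree hn ρ
      rw [this, Multiset.map_const', Multiset.sum_replicate, smul_eq_mul,
        ← (IsAlgClosed.splits (F.map (Int.castRingHom ℂ))).natDegree_eq_card_roots,
        hF.natDegree_map, mul_comm]
    · intro f hf
      obtain ⟨ρ, _, rfl⟩ := Multiset.mem_map.mp hf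
      exact PhiAt_monic hn ρ
  refine ⟨?_, ?_⟩
  · exact monic_of_injective hinj hmon
  · rw [← hdeg, natDegree_map_eq_of_injective hinj]

theorem TT_monic {n : ℕ} (hn : n.Prime) (h2 : n ≠ 2) {F : ℤ[X]} (hF : F.Monic) :
    (TT n F).Monic := (TT_monic_natDegree hn h2 hF).1

theorem TT_natDegree {n : ℕ} (hn : n.Prime) (h2 : n ≠ 2) {F : ℤ[X]} (hF : F.Monic) :
    (TT n F).natDegree = (n + 1) * F.natDegree := (TT_monic_natDegree hn h2 hF).2

theorem C_dvd_iff_map {l : ℕ} (F : ℤ[X]) :
    C (l : ℤ) ∣ F ↔ F.map (Int.castRingHom (ZMod l)) = 0 := by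
  rw [C_dvd_iff_dvd_coeff, Polynomial.ext_iff]
  apply forall_congr'
  intro i
  rw [coeff_map, coeff_zero, eq_intCast, ZMod.intCast_zmod_eq_zero_iff_dvd]

/-- A square modulo `l` stays a square modulo `l`. -/
theorem TT_sq {n : ℕ} (hn : n.Prime) {l : ℕ} {F : ℤ[X]} (h : ∃ R : ℤ[X], C (l : ℤ) ∣ F - R ^ 2) :
    ∃ R : ℤ[X], C (l : ℤ) ∣ TT n F - R ^ 2 := by
  obtain ⟨R, hR⟩ := h
  refine ⟨TT n R, ?_⟩
  rw [C_dvd_iff_map] at hR ⊢
  rw [Polynomial.map_sub, sub_eq_zero] at hR ⊢
  rw [← TT_pow hn]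
  have h1 : F.map (Int.castRingHom (ZMod l)[X]) = (R ^ 2).map (Int.castRingHom (ZMod l)[X]) := by
    have h2 : ∀ G : ℤ[X], G.map (Int.castRingHom (ZMod l)[X]) =
        (G.map (Int.castRingHom (ZMod l))).map C := by
      intro G
      rw [Polynomial.map_map]
      congr 1
    rw [h2, h2, hR]
  have h3 := TT_congr hn (X : (ZMod l)[X]) h1
  rw [aeval_eq, aeval_eq, map_eval_X, map_eval_X] at h3
  exact h3

end Pool.Agent.SS
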