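import Mathlib
import Pool.Agent.Work.CM.Defs

/-!
Definitions for the project on supersingular places (MP_a5099b_nt).
Lattices are `L : Submodule ℤ ℂ` with `CM.IsLat L`. Modular polynomials are elements of
`Polynomial (Polynomial ℤ)`: the variable `X` is inside, the variable `Y` is outside.
-/

set_option autoImplicit false

namespace Pool.Agent.SS

open Polynomial
open Pool.Agent.Work.CM

noncomputable section

/-- The invariant `j` of a lattice. -/
def jL (L : Submodule ℤ ℂ) : ℂ := 1728 * g2 L ^ 3 / (g2 L ^ 3 - 27 * g3 L ^ 2)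

/-- `L` and `L'` are lattices and `L` is a sublattice of index `n` of `L'`. -/
structure Sup (n : ℕ) (L L' : Submodule ℤ ℂ) : Prop where
  lat : IsLat L
  lat' : IsLat L'
  le : L ≤ L'
  idx : L.toAddSubgroup.relIndex L'.toAddSubgroup = n

/-- `Φ` is the modular polynomial of level `n`: the values of `j` at the superlattices of index `n`
of `L` are the roots of `Φ(j(L), Y)`. -/
structure IsPhi (n : ℕ) (Φ : ℤ[X][X]) : Prop where
  monic : Φ.Monic
  deg : Φ.natDegree = n + 1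
  spec : ∀ L : Submodule ℤ ℂ, IsLat L →
    Φ.map (aeval (jL L) : ℤ[X] →ₐ[ℤ] ℂ).toRingHom = ∏ᶠ L' ∈ {L' | Sup n L L'}, (X - C (jL L'))

/-- The modular polynomial of level `n` (`n` prime). -/
def Phi (n : ℕ) : ℤ[X][X] := Classical.epsilon (IsPhi n)

/-- `Φ_n(x, Y)`. -/
def PhiAt {A : Type*} [CommRing A] (n : ℕ) (x : A) : A[X] :=
  (Phi n).map (aeval x : ℤ[X] →ₐ[ℤ] A).toRingHom

/-- `Φ_n(X, X)`. -/
def PhiDiag (n : ℕ) : ℤ[X] := (Phi n).eval X

/-- `(X ^ n - Y) (X - Y ^ n)`. -/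
def Kron (n : ℕ) : ℤ[X][X] := (C (X ^ n) - X) * (C X - X ^ n)

/-- `(Φ_n(X, Y) - (X ^ n - Y) (X - Y ^ n)) / n`. -/
def GG (n : ℕ) : ℤ[X][X] := Classical.epsilon fun G => Phi n = Kron n + C (C (n : ℤ)) * G

/-- `G(x, y)`. -/
def GGAt {A : Type*} [CommRing A] (n : ℕ) (x y : A) : A :=
  ((GG n).map (aeval x : ℤ[X] →ₐ[ℤ] A).toRingHom).eval y

/-- The operator `F ↦ T F`, `(T F)(x) = ∏ F(Y)` over the roots `Y` of `Φ_n(x, Y)`. -/
def TT (n : ℕ) (F : ℤ[X]) : ℤ[X] := resultant (Phi n) (F.map C) (n + 1) F.natDegree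

/-- The complex number `√(-l)`. -/
def sq (l : ℕ) : ℂ := Complex.I * (Real.sqrt l : ℂ)

/-- `L` has multiplication by `√(-l)`. -/
def HasSq (l : ℕ) (L : Submodule ℤ ℂ) : Prop := ∀ z ∈ L, sq l * z ∈ L

/-- `H` is the product of the different `X - j(L)`, `L` a lattice with multiplication by
`√(-l)`. -/
structure IsHH (l : ℕ) (H : ℤ[X]) : Prop where
  monic : H.Monic
  sep : (H.map (Int.castRingHom ℂ)).Separable
  spec : ∀ x : ℂ, aeval x H = 0 ↔ ∃ L : Submodule ℤ ℂ, IsLat L ∧ HasSq l L ∧ jL L = x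

/-- The class polynomial of `√(-l)`. -/
def HH (l : ℕ) : ℤ[X] := Classical.epsilon (IsHH l)

/-- The coefficient of `x ^ (p - 1)` in `(x ^ 3 + a x + b) ^ ((p - 1) / 2)`. -/
def Hasse (p : ℕ) {k : Type*} [CommRing k] (a b : k) : k :=
  ((X ^ 3 + C a * X + C b : k[X]) ^ ((p - 1) / 2)).coeff (p - 1)

/-- `y` is a supersingular invariant (`k` a field of characteristic `p ≥ 5`): some curve
`y ^ 2 = x ^ 3 + a x + b` over `k` with invariant `y` has Hasse invariant zero. -/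
def SSj (p : ℕ) {k : Type*} [Field k] (y : k) : Prop :=
  ∃ a b : k, 4 * a ^ 3 + 27 * b ^ 2 ≠ 0 ∧ 1728 * (4 * a ^ 3) = y * (4 * a ^ 3 + 27 * b ^ 2) ∧
    Hasse p a b = 0

/-- The primes `l` used: `l ≡ 7 mod 8`, `l ≡ 2 mod 3`. -/
structure LPrime (l : ℕ) : Prop where
  prime : l.Prime
  mod8 : l % 8 = 7
  mod3 : l % 3 = 2

/-- The class of polynomials evaluated at the invariant of the curve. -/
structure Good (l : ℕ) (F : ℤ[X]) : Prop where
  monic : F.Monic
  even : Even F.natDegree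
  sq : ∃ R : ℤ[X], (C (l : ℤ)) ∣ F - R ^ 2
  ss : ∀ p : ℕ, p.Prime → 5 ≤ p → (p = l ∨ jacobiSym (-l) p = -1) →
    ∀ (k : Type) [Field k] [CharP k p] (z : k), aeval z F = 0 → SSj p z

end

end Pool.Agent.SS
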