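import Pool.Agent.Work.MP_a5099b_nt.Defs
import Pool.Agent.Work.MP_a5099b_nt.SpecB
import Pool.Agent.Work.MP_a5099b_nt.C.EHas
import Pool.Agent.Work.MP_a5099b_nt.C.MSsP
import Pool.Agent.Work.MP_a5099b_nt.C.MIso
import Pool.Agent.Work.MP_a5099b_nt.C.MHHs

/-!
Interface of block C, modular part (helper4): imports only.
`exists_ssPoly` (`C.MSsP`), `SSj_isog` (`C.MIso`), `HH_ss` (`C.MHHs`).
-/
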