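import Pool.Agent.Work.MP_a5099b_nt.Defs
import Pool.Agent.Work.MP_a5099b_nt.SpecB
import Pool.Agent.Work.MP_a5099b_nt.SpecT
import Pool.Agent.Work.MP_a5099b_nt.SpecC0
import Pool.Agent.Work.MP_a5099b_nt.C.EHas
import Pool.Agent.Work.MP_a5099b_nt.C.ECard
import Pool.Agent.Work.MP_a5099b_nt.C.EGood

/-!
Interface of block C (supersingular invariants in characteristic `p ≥ 5`): imports only (same names as before).
`SSj_all, SSj_map, SSj_frob` (`C.EHas`, proved), `card_iff` (`C.ECard`, proved from `C.EPow`, `C.ECnt`),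
`HH_good, Good.mul, Good.one, Good.TT` (`C.EGood`, proved from `SpecC0`, `SpecB`, `SpecT`),
`exists_ssPoly, SSj_isog, HH_ss` (`SpecC0`, statements; modular part, helper4).
-/
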