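import Pool.Agent.Work.MP_a5099b_nt.Defs
import Pool.Agent.Work.MP_a5099b_nt.SpecB
import Pool.Agent.Work.MP_a5099b_nt.E.Fin

/-!
Interface of block E (the modular equation is a product of linear factors over the power series).
-/

set_option autoImplicit false

namespace Pool.Agent.SS

open Polynomial
open Pool.Agent.Work.CM

theorem phi_split {q l : ℕ} (hq : q.Prime) (h5 : 5 ≤ q) (hl : l.Prime) (hl5 : 5 ≤ l) (hlq : l ≠ q)
    {k : Type}
    [Field k] [CharP k q] [IsAlgClosed k] (y : k) (h0 : y ≠ 0) (h1 : y ≠ 1728) :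
    ∃ s : Multiset (PowerSeries k),
      PhiAt l (PowerSeries.C y + PowerSeries.X : PowerSeries k) =
        (s.map fun u => X - C u).prod :=
  phi_split' hq h5 hl hl5 hlq y h0 h1

end Pool.Agent.SS
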