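import Pool.Agent.Work.MP_a5099b_nt.Defs
import Pool.Agent.Work.MP_a5099b_nt.SpecE
import Pool.Agent.Work.MP_a5099b_nt.F.Br
import Pool.Agent.Work.MP_a5099b_nt.F.Main

/-!
Interface of block F (parity). Architect: helper97.
-/

set_option autoImplicit false

namespace Pool.Agent.SS

open Polynomial
open Pool.Agent.Work.CM

theorem parity {q l : ℕ} (hq : q.Prime) (h5 : 5 ≤ q) (hl : l.Prime) (hl5 : 5 ≤ l) (hlq : l ≠ q)
    {k : Type} [Field k] [CharP k q] [IsAlgClosed k] (y : k) (h0 : y ≠ 0) (h1 : y ≠ 1728) :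
    ((PhiDiag l).map (Int.castRingHom k)).rootMultiplicity y ≡
      (PhiAt l y).rootMultiplicity y [MOD 2] := by
  obtain ⟨n, Yi, hinj, hf⟩ := SSF.branches hq h5 hl hl5 hlq y h0 h1
  have h2 : (2 : k) ≠ 0 := by
    intro h
    have h3 : ((2 : ℕ) : k) = 0 := by exact_mod_cast h
    have h4 := (CharP.cast_eq_zero_iff k q 2).1 h3
    have := Nat.le_of_dvd (by norm_num) h4
    omega
  have := SSF.main h2 (SSF.red_symm hl) (SSF.red_diag_ne hl) hinj hf
  rwa [SSF.red_diag, SSF.red_fib] at this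

end Pool.Agent.SS
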