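import Pool.Agent.Work.MP_a5099b_nt.Defs
import Pool.Agent.Work.MP_a5099b_nt.SpecB
import Pool.Agent.Work.MP_a5099b_nt.D.Fin

/-!
Interface of block D (regularity at the supersingular points). Architect: helper1.
The theorem `regular` is in `D.Fin` (statement unchanged); the only input from block C is
`hasse_q` (`D.HasseQ`).
-/
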