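import Pool.Agent.Work.MP_a5099b_nt.Defs
import Pool.Agent.Work.MP_a5099b_nt.SpecB
import Pool.Agent.Work.MP_a5099b_nt.SpecT
import Pool.Agent.Work.MP_a5099b_nt.G.Br

/-!
Interface of block G (the local tree). Architect: helper97.
-/

set_option autoImplicit false

namespace Pool.Agent.SS

open Polynomial
open Pool.Agent.Work.CM

private theorem aeval_int {L : Type*} [Field L] (i : Algebra ℤ L) (x : L) (F : ℤ[X]) :
    @aeval ℤ L _ _ i x F = F.eval₂ (Int.castRingHom L) x := by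
  rw [aeval_def]
  congr 1
  exact RingHom.ext_int _ _

/-- `TT q` as a multiplicative map -/
private noncomputable def TTh {q : ℕ} (hq : q.Prime) : ℤ[X] →* ℤ[X] where
  toFun := TT q
  map_one' := TT_one hq
  map_mul' := TT_mul hq

/-- For a polynomial `H` there are polynomials `E k` (products of polynomials `T^i H`) such that,
for every point `x` of the unramified residue disc of a regular supersingular `n`, the valuation
of `E k (x)` is congruent mod 2 to the multiplicity of `n` as a root of `H` mod `q`, for large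
`k`. -/
theorem tree {q : ℕ} [Fact q.Prime] (h5 : 5 ≤ q) (H : ℤ[X]) (hH : H.Monic) :
    ∃ E : ℕ → ℤ[X], (∀ k, E k ∈ Submonoid.closure (Set.range fun i => (TT q)^[i] H)) ∧
      ∀ (x : PadicAlgCl q) (n : ℤ), ‖x - (n : PadicAlgCl q)‖ ≤ ‖(q : PadicAlgCl q)‖ →
        GGAt q (n : ZMod q) ((n : ZMod q)) ≠ 0 →
        (∀ F : ℤ[X], aeval x F = 0 ∨ ∃ m : ℕ, ‖aeval x F‖ = ‖(q : PadicAlgCl q)‖ ^ m) →
        (∀ i, aeval x ((TT q)^[i] H) ≠ 0) →
        ∃ k0, ∀ k ≥ k0, ∃ m : ℕ, ‖aeval x (E k)‖ = ‖(q : PadicAlgCl q)‖ ^ m ∧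
          m ≡ (H.map (Int.castRingHom (ZMod q))).rootMultiplicity (n : ZMod q) [MOD 2] := by
  have hq : q.Prime := Fact.out
  refine ⟨SSG.EE (TTh hq) H, fun k => SSG.EE_mem (TTh hq) H k, ?_⟩
  intro x n hx hG hF hT
  have hloc := SSG.loc_Phi hq (by omega) hG
  have hpt := SSG.pt_norm hx
  simp only [aeval_int] at hF hT ⊢
  have hTT : ∀ (F : ℤ[X]) (y : PadicAlgCl q),
      @aeval ℤ (PadicAlgCl q) _ _ (Ring.toIntAlgebra _) y (TT q F) =
        ((SSG.nb (Phi q) y).map fun z => @aeval ℤ (PadicAlgCl q) _ _ (Ring.toIntAlgebra _) z F).prod := by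
    intro F y
    rw [SSG.nb_Phi]
    exact TT_aeval_alg hq y F
  have hne : ∀ k, (SSG.EE (TTh hq) H k).eval₂ (Int.castRingHom (PadicAlgCl q)) x ≠ 0 := by
    intro k
    have hk := SSG.EE_mem (TTh hq) H k
    generalize SSG.EE (TTh hq) H k = F₀ at hk ⊢
    induction hk using Submonoid.closure_induction with
    | mem F hF' =>
      obtain ⟨i, rfl⟩ := hF'
      exact hT i
    | one => simp
    | mul F G _ _ h1 h2 =>
      rw [eval₂_mul]
      exact mul_ne_zero h1 h2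
  have hval : ∀ F : ℤ[X], F.eval₂ (Int.castRingHom (PadicAlgCl q)) x ≠ 0 →
      ∃ m : ℕ, SSG.nv q (F.eval₂ (Int.castRingHom (PadicAlgCl q)) x) =
        SSG.nv q (q : PadicAlgCl q) ^ m := by
    intro F h0
    rcases hF F with h | h
    · exact absurd h h0
    · exact h
  obtain ⟨M, hM⟩ : ∃ M, (H.map (Int.castRingHom (ZMod q))).rootMultiplicity (n : ZMod q) = M :=
    ⟨_, rfl⟩
  refine ⟨M + 2, fun k hk => ?_⟩
  obtain ⟨m, rfl⟩ : ∃ m, k = m + 1 := ⟨k - 1, by omega⟩
  have hDD : M < SSG.DD q m := by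
    unfold SSG.DD
    have h1 : m < q ^ m := Nat.lt_pow_self hq.one_lt
    have h2 : q ^ m ≤ q ^ m * (q + 1) := Nat.le_mul_of_pos_right _ (by omega)
    omega
  obtain ⟨z, hz, hzM⟩ := SSG.main hloc hpt hTT hH hM hDD
    (by
      obtain ⟨m, hm⟩ := hval H (by simpa using hT 0)
      exact ⟨m, by rw [aeval_int, hm, zpow_natCast]⟩)
    (fun i _ => by
      obtain ⟨m, hm⟩ := hval _ (hne i)
      exact ⟨m, by rw [aeval_int, hm, zpow_natCast]⟩)
  rw [aeval_int] at hz
  obtain ⟨r, hr⟩ := hval _ (hne (m + 1))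
  refine ⟨r, hr, ?_⟩
  rw [hM]
  have hzr : z = (r : ℤ) := by
    have h1 : SSG.nv q (q : PadicAlgCl q) ^ z = SSG.nv q (q : PadicAlgCl q) ^ (r : ℤ) := by
      rw [← hz, hr, zpow_natCast]
    exact zpow_right_injective₀ hpt.pos hpt.lt.ne h1
  rw [hzr] at hzM
  exact_mod_cast (Int.natCast_modEq_iff (a := r) (b := M) (n := 2)).1 (by exact_mod_cast hzM)

end Pool.Agent.SS
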