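import Pool.Agent.Work.MP_a5099b_nt.I.Fin

/-!
Interface of block I (primes in arithmetic progressions represented by forms).
Architect: helper47.
-/

set_option autoImplicit false

namespace Pool.Agent.SS

/-- A primitive positive definite form of discriminant `-4 q` represents infinitely many primes
of every residue class modulo `N` that it represents. -/
theorem primes_form {q : ℕ} (hq : q.Prime) (hq4 : q % 4 = 3) (hq7 : 7 ≤ q) (a b c : ℤ) (ha : 0 < a)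
    (hd : b ^ 2 - 4 * a * c = -4 * q) (hg : Int.gcd (Int.gcd a b) c = 1) {N : ℕ} (hN : 0 < N)
    (x y : ℤ) (hxy : IsCoprime (a * x ^ 2 + b * x * y + c * y ^ 2) (N : ℤ)) (B : ℕ) :
    ∃ l : ℕ, l.Prime ∧ B < l ∧ (l : ℤ) ≡ a * x ^ 2 + b * x * y + c * y ^ 2 [ZMOD N] ∧
      ∃ u v : ℤ, (l : ℤ) = a * u ^ 2 + b * u * v + c * v ^ 2 := by
  have hprim : ∀ p : ℕ, p.Prime → ¬ ((p : ℤ) ∣ a ∧ (p : ℤ) ∣ b ∧ (p : ℤ) ∣ c) := by
    rintro p hp ⟨h1, h2, h3⟩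
    have h4 : (p : ℤ) ∣ ((Int.gcd a b : ℕ) : ℤ) := Int.dvd_coe_gcd h1 h2
    have h5 : (p : ℤ) ∣ ((Int.gcd (Int.gcd a b) c : ℕ) : ℤ) := Int.dvd_coe_gcd h4 h3
    rw [hg] at h5
    have h6 : p ∣ 1 := by exact_mod_cast h5
    exact hp.one_lt.ne' (Nat.dvd_one.1 h6)
  obtain ⟨l, h1, h2, h3, u, v, h4⟩ :=
    Pool.Agent.Work.MP_a5099b_nt.PrF.primes_form q hq hq4 hq7 a b c ha (Or.inr (by rw [hd]))
      hprim N hN x y hxy B
  exact ⟨l, h2, h1, h3, u, v, h4⟩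

end Pool.Agent.SS
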