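import Pool.Agent.Work.MP_a5099b_nt.Defs
import Pool.Agent.Work.MP_a5099b_nt.SpecB
import Pool.Agent.Work.MP_a5099b_nt.SpecC
import Pool.Agent.Work.MP_a5099b_nt.SpecD
import Pool.Agent.Work.MP_a5099b_nt.SpecI
import Pool.Agent.Work.MP_a5099b_nt.H.Main

/-!
Interface of block H (the primes `l` for which the number of self isogenies is odd). Architect:
helper44.
-/

set_option autoImplicit false

namespace Pool.Agent.SS

open Polynomial
open Pool.Agent.Work.CM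

theorem exists_prime {q : ℕ} [Fact q.Prime] (h7 : 7 ≤ q) (hq4 : q % 4 = 3) (y : ZMod q)
    (hy : SSj q y) (h0 : y ≠ 0) (h1 : y ≠ 1728) {m : ℕ} (hm : Odd m) (hm2 : Squarefree m)
    (hqm : ¬ q ∣ m) {r : ℕ} (hr : Nat.Coprime r (8 * m)) (B : ℕ) :
    ∃ l : ℕ, l.Prime ∧ B < l ∧ l ≡ r [MOD 8 * m] ∧ jacobiSym (-q) l = 1 ∧
      Odd ((PhiAt l y).rootMultiplicity y) :=
  HB.exists_prime_main h7 hq4 y hy h0 h1 hm hm2 hqm hr B

end Pool.Agent.SS
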