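import Pool.Agent.Work.MP_a5099b_nt.M.Main

/-!
Interface of blocks L and M (phase 3): `LB.root_near, LB.no_two, LB.cycle` (`L.Cyc`),
`MB.two_stable` (`M.Two`), `MB.exists_val` (`M.Val`), `MB.diag_even, MB.even_of_split` (`M.Main`). Architect: helper97.
-/

set_option autoImplicit false

namespace Pool.Agent.SS

open Polynomial

/-- If `-l` is a square modulo `q` then the number of self isogenies of degree `l` is even. -/
theorem even_of_split {q : ℕ} [Fact q.Prime] (h5 : 5 ≤ q) (y : ZMod q) (hy : SSj q y)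
    (h0 : y ≠ 0) (h1 : y ≠ 1728) {l : ℕ} (hl : l.Prime) (hl5 : 5 ≤ l) (hlq : l ≠ q)
    (hsq : IsSquare (-(l : ZMod q))) : Even ((PhiAt l y).rootMultiplicity y) := by
  obtain ⟨r, hr⟩ := hsq
  obtain ⟨e, rfl⟩ := ZMod.intCast_surjective r
  refine MB.even_of_split h5 hl hl5 hlq y hy h0 h1 (e := e) ?_
  rw [← ZMod.intCast_zmod_eq_zero_iff_dvd]
  push_cast
  rw [pow_two, ← hr, neg_add_cancel]

end Pool.Agent.SS
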