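import Pool.Agent.Work.MP_a5099b_nt.K1.Main
import Pool.Agent.Work.MP_a5099b_nt.H1.Genus1
import Pool.Agent.Work.MP_a5099b_nt.H1.Three1

/-!
Interface of block K1 (averaged version of block H1, `q ≡ 1 mod 4`). Architect: helper34 (proof: helper91).
-/

set_option autoImplicit false

namespace Pool.Agent.SS

open Polynomial
open Pool.Agent.SS.HB

theorem exists_prime_avg1 {q : ℕ} [Fact q.Prime] (h7 : 7 ≤ q) (hq4 : q % 4 = 1)
    (S : Finset (ZMod q)) (hS : ∀ y ∈ S, SSj q y ∧ y ≠ 0 ∧ y ≠ 1728 ∧ y ≠ 8000) (c : ZMod q → ℕ)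
    (hc : Odd (∑ y ∈ S, c y)) {m : ℕ} (hm : Odd m) (hm2 : Squarefree m)
    (hqm : ¬ q ∣ m) {r : ℕ} (hr : Nat.Coprime r (8 * m)) (hr4 : r % 4 = 3) (B : ℕ) :
    ∃ l : ℕ, l.Prime ∧ B < l ∧ l ≡ r [MOD 8 * m] ∧ jacobiSym (-q) l = 1 ∧
      Odd (∑ y ∈ S, c y * (PhiAt l y).rootMultiplicity y) := by
  have hq : q.Prime := Fact.out
  have h11 : 11 ≤ q := by
    by_contra hcon
    have h9 : q = 9 := by omega
    rw [h9] at hq
    exact absurd hq (by norm_num)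
  obtain ⟨k, _, _, ⟨red⟩⟩ := exists_place hq
  refine K1B.exists_prime_avg_main1 (by omega) hq4 S
    (fun y hy => ⟨(hS y hy).1, (hS y hy).2.1, (hS y hy).2.2.1⟩) c hc hm hm2 hqm hr hr4 ?_ B
  intro y hy
  obtain ⟨hy1, hy2, hy3, hy4⟩ := hS y hy
  obtain ⟨L, M, P⟩ := exists_pairAt (by omega) red y hy1 hy2 hy3
  obtain ⟨l, hl, hql, hlr, hj, x, hx, hx'⟩ :=
    HC.three1 hq4 h11 P hy1 hy2 hy3 hy4 hm hm2 hqm hr hr4 q
  exact ⟨l, hl, hql, hlr, hj,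
    HC.pair_odd hq4 h11 P hy3 hy4 hl (by omega) hql.ne' hx hx'⟩

end Pool.Agent.SS
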