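import Pool.Agent.Work.MP_a5099b_nt.K.Main

/-!
Interface of block K (averaged version of block H). Architect: helper47 (proof: helper91).
-/

set_option autoImplicit false

namespace Pool.Agent.SS

open Polynomial

theorem exists_prime_avg {q : ℕ} [Fact q.Prime] (h7 : 7 ≤ q) (hq4 : q % 4 = 3)
    (S : Finset (ZMod q)) (hS : ∀ y ∈ S, SSj q y ∧ y ≠ 0 ∧ y ≠ 1728) (c : ZMod q → ℕ)
    (hc : Odd (∑ y ∈ S, c y)) {m : ℕ} (hm : Odd m) (hm2 : Squarefree m)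
    (hqm : ¬ q ∣ m) {r : ℕ} (hr : Nat.Coprime r (8 * m)) (B : ℕ) :
    ∃ l : ℕ, l.Prime ∧ B < l ∧ l ≡ r [MOD 8 * m] ∧ jacobiSym (-q) l = 1 ∧
      Odd (∑ y ∈ S, c y * (PhiAt l y).rootMultiplicity y) :=
  KB.exists_prime_avg_main h7 hq4 S hS c hc hm hm2 hqm hr B

end Pool.Agent.SS
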